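import Mathlib
import Pool.Agent.N394.NF.Defs
import Pool.Agent.N394.NF.Main

set_option autoImplicit false

/-!
# MP_fad2aa_co: extremal point-line configurations need not come from lattice sections

The points are the products of two boxes of the ring `ℤ[√2]`, the lines are the lines `y = s x + t`
with `s`, `t` in boxes of `ℤ[√2]`.
-/

namespace Pool.Agent.Results.MP_fad2aa_co.NotLattice

open Pool.Agent.N394.NF

/-- Q1 is false. In fact for every `c > 0` there are arbitrarily large extremal configurations of
`16 n` points and `n` lines in which no subset of at least `c · 16 n` points, and no set of at least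
`c n` dual points of lines, is sent by a projective transformation to points with rational
coordinates, let alone into a lattice section. -/
theorem result : ¬ Q1 ∧
    ∀ c : ℝ, 0 < c → ∀ N : ℕ, ∃ (n : ℕ) (P : Finset (ℝ × ℝ)) (L : Finset (Set (ℝ × ℝ))),
      N ≤ n ∧ P.card = 16 * n ∧ L.card = n ∧ (∀ l ∈ L, IsLine l) ∧
      (1 / 8 : ℝ) * (P.card : ℝ) ^ (2 / 3 : ℝ) * (L.card : ℝ) ^ (2 / 3 : ℝ)
        ≤ (incidences P L : ℝ) ∧
      (∀ P' ⊆ P, c * (P.card : ℝ) ≤ (P'.card : ℝ) → ¬ ProjectivelyRational P') ∧
      (∀ D : Finset (ℝ × ℝ), (∀ d ∈ D, lineOf d ∈ L) → c * (L.card : ℝ) ≤ (D.card : ℝ) →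
        ¬ ProjectivelyRational D) :=
  ⟨not_Q1, strong⟩

end Pool.Agent.Results.MP_fad2aa_co.NotLattice
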